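import Pool.Agent.W558.WD.Stms
import Pool.Agent.W558.S.All

/-!
# FCS: local form of the condition `CO`
-/

set_option autoImplicit false
set_option linter.unusedVariables false
set_option linter.unusedSectionVars false

universe u

open Polynomial Pool.Agent.W558

namespace Pool.Agent.W327.WD

section aux

variable {k E : Type u} [Field k] [Field E] [Algebra k E]

/-- A common denominator of a derivation on a finitely generated algebra. -/
theorem exists_den {A : Subalgebra k E} [Algebra.FiniteType k A] (q : Ideal A) (hq : q.IsPrime)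
    (D : Derivation k E E) (hD : ∀ a ∈ A, D a ∈ locAt A q hq) :
    ∃ e : A, e ∉ q ∧ ∀ a ∈ A, (e : E) * D a ∈ A := by
  classical
  obtain ⟨S, hS⟩ := Algebra.FiniteType.out (R := k) (A := A)
  have h1 : ∀ a : A, ∃ b : A, b ∉ q ∧ D a * b ∈ A := by
    intro a
    obtain ⟨c, b, hb, h⟩ := hD a a.2
    exact ⟨b, hb, by rw [h]; exact c.2⟩
  choose b hb hb' using h1
  refine ⟨∏ s ∈ S, b s, ?_, ?_⟩
  · intro h
    obtain ⟨s, hs, h2⟩ := (hq.prod_mem_iff).1 h
    exact hb s h2
  · set e : A := ∏ s ∈ S, b s with he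
    have key : ∀ a : A, (e : E) * D a ∈ A := by
      intro a
      have ha : a ∈ Algebra.adjoin k (S : Set A) := by rw [hS]; exact Algebra.mem_top
      induction ha using Algebra.adjoin_induction with
      | mem x hx =>
        have h3 : (e : E) * D x = (D x * b x) * ((∏ s ∈ S.erase x, b s : A) : E) := by
          rw [he, ← Finset.mul_prod_erase S b hx, Subalgebra.coe_mul]
          ring
        rw [h3]
        exact A.mul_mem (hb' x) (∏ s ∈ S.erase x, b s : A).2
      | algebraMap r =>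
        have h3 : D ((algebraMap k A r : A) : E) = 0 := D.map_algebraMap r
        rw [h3, mul_zero]
        exact A.zero_mem
      | add x y hx hy h4 h5 =>
        rw [Subalgebra.coe_add, map_add, mul_add]
        exact A.add_mem h4 h5
      | mul x y hx hy h4 h5 =>
        rw [Subalgebra.coe_mul, Derivation.leibniz, smul_eq_mul, smul_eq_mul]
        have h6 : (e : E) * (x * D y + y * D x) = x * (e * D y) + y * (e * D x) := by ring
        rw [h6]
        exact A.add_mem (A.mul_mem x.2 h5) (A.mul_mem y.2 h4)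
    exact fun a ha => key ⟨a, ha⟩

/-- Extension of the stability to the local ring. -/
theorem stable_loc {A O : Subalgebra k E} (h : IsPt A O) (D : Derivation k E E) (e : E)
    (hD : ∀ a ∈ A, e * D a ∈ A) : ∀ a ∈ O, e * D a ∈ O := by
  intro x hx
  obtain ⟨a, ha, b, hb, hb0, hbi, rfl⟩ := h.frac x hx
  have h1 : D (b⁻¹) = -(b⁻¹ * b⁻¹ * D b) := by
    have h2 : D (b * b⁻¹) = 0 := by rw [mul_inv_cancel₀ hb0]; exact D.map_one_eq_zero
    rw [Derivation.leibniz, smul_eq_mul, smul_eq_mul] at h2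
    have h3 : D b⁻¹ = b⁻¹ * (b * D b⁻¹) := by rw [← mul_assoc, inv_mul_cancel₀ hb0, one_mul]
    rw [h3]
    linear_combination b⁻¹ * h2
  have h4 : e * D (a * b⁻¹) = b⁻¹ * (e * D a) - a * (b⁻¹ * b⁻¹) * (e * D b) := by
    rw [Derivation.leibniz, smul_eq_mul, smul_eq_mul, h1]
    ring
  rw [h4]
  exact O.sub_mem (O.mul_mem hbi (h.le (hD a ha)))
    (O.mul_mem (O.mul_mem (h.le ha) (O.mul_mem hbi hbi)) (h.le (hD b hb)))

/-- The product of the local equations makes a derivation logarithmic. -/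
theorem mem_Th {T I : Type} [Fintype I] (M : LM (⊥ : Subalgebra k E) ⊤ T I) {t : T}
    {O : Subalgebra k E} (h : M.A t ≤ O) (D : Derivation k E E) (e : E)
    (hD : ∀ a ∈ O, e * D a ∈ O) : ((∏ i, M.x t i) * e) • D ∈ Th O (bdy M O) := by
  classical
  have hx : ∀ i, M.x t i ∈ O := fun i => h (M.xA t i)
  have hP : (∏ i, M.x t i) ∈ O := O.prod_mem fun i _ => hx i
  have happ : ∀ a, (((∏ i, M.x t i) * e) • D) a = (∏ i, M.x t i) * (e * D a) := by
    intro a
    rw [Derivation.smul_apply, smul_eq_mul, mul_assoc]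
  refine ⟨fun a ha => by rw [happ]; exact O.mul_mem hP (hD a ha), ?_⟩
  rintro z ⟨t', i, ht', hi, w, hw, hw0, hwi, rfl⟩
  have r1 := M.ratio h ht' i
  have r2 := M.ratio ht' h i
  have hx0 := M.x0 t i
  have hx0' := M.x0 t' i
  set v := w * (M.x t' i / M.x t i) with hv
  have hvO : v ∈ O := O.mul_mem hw r1
  have hv0 : v ≠ 0 := mul_ne_zero hw0 (div_ne_zero hx0' hx0)
  have hvi : v⁻¹ ∈ O := by
    rw [hv, mul_inv, inv_div]
    exact O.mul_mem hwi r2
  have hz : w * M.x t' i = v * M.x t i := by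
    rw [hv]
    field_simp
  refine ⟨(∏ j ∈ Finset.univ.erase i, M.x t j) * (e * D (M.x t i)) +
    v⁻¹ * ((∏ i, M.x t i) * (e * D v)), ?_, ?_⟩
  · exact O.add_mem (O.mul_mem (O.prod_mem fun i _ => hx i) (hD _ (hx i)))
      (O.mul_mem hvi (O.mul_mem hP (hD _ hvO)))
  · rw [happ, hz, Derivation.leibniz, smul_eq_mul, smul_eq_mul,
      ← Finset.mul_prod_erase Finset.univ (fun i => M.x t i) (Finset.mem_univ i)]
    field_simp

end aux

theorem main : WD_fcs.{u} := by
  intro k E _ _ _ _ htr s f hf hCO t O hO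
  have hfin : S_fin.{u} := all_fin
  have hSf := s.sf t
  have hsm := hSf.sm
  have hft : Algebra.FiniteType k (s.M.A t) := inferInstance
  set A := s.M.A t with hA
  intro 𝔮 h𝔮 hnm hbd
  -- units are not in the prime ideal
  have hunit : ∀ a : O, a ∈ 𝔮 → NU O (a : E) := by
    intro a ha
    by_contra hn
    obtain ⟨h0, h1⟩ := (not_NU_iff a.2).1 hn
    apply h𝔮.ne_top
    rw [Ideal.eq_top_iff_one]
    have : (1 : O) = ⟨(a : E)⁻¹, h1⟩ * a := Subtype.ext (inv_mul_cancel₀ h0).symm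
    rw [this]
    exact 𝔮.mul_mem_left _ ha
  have hxO : ∀ i, s.M.x t i ∈ O := fun i => hO.le (s.M.xA t i)
  have hx𝔮 : ∀ i, (⟨s.M.x t i, hxO i⟩ : O) ∉ 𝔮 := by
    intro i hi
    have h1 := hunit _ hi
    exact hbd _ ⟨t, i, hO.le, h1, 1, O.one_mem, one_ne_zero, by rw [inv_one]; exact O.one_mem,
      (one_mul _).symm⟩ hi
  -- the ideal of the chart
  let ι : A →ₐ[k] O := Subalgebra.inclusion hO.le
  let q : Ideal A := 𝔮.comap ι
  have hq : q.IsPrime := Ideal.IsPrime.comap _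
  have hmem : ∀ a : A, a ∈ q ↔ (⟨a, hO.le a.2⟩ : O) ∈ 𝔮 := fun a => Iff.rfl
  have hPq : (⟨∏ i, s.M.x t i, O.prod_mem fun i _ => hxO i⟩ : O) ∉ 𝔮 := by
    have e : (⟨∏ i, s.M.x t i, O.prod_mem fun i _ => hxO i⟩ : O) =
        ∏ i, (⟨s.M.x t i, hxO i⟩ : O) := by
      apply Subtype.ext
      simp
    rw [e]
    intro h
    obtain ⟨i, -, hi⟩ := (h𝔮.prod_mem_iff).1 h
    exact hx𝔮 i hi
  -- the key step
  have key : ∀ D : Derivation k E E, (∀ a ∈ A, D a ∈ locAt A q hq) → D f ∈ locAt A q hq →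
      (D f)⁻¹ ∈ locAt A q hq → D f ≠ 0 → ∃ θ ∈ Th O (bdy s.M O), ∀ c : O, c ∉ 𝔮 →
        ∀ h : (c : E) * θ f ∈ O, (⟨c * θ f, h⟩ : O) ∉ 𝔮 := by
    intro D hD h1 h2 h3
    obtain ⟨e, he, heD⟩ := exists_den q hq D hD
    refine ⟨_, mem_Th s.M hO.le D (e : E) (stable_loc hO D e heD), ?_⟩
    intro c hc h hcon
    rw [hmem] at he
    obtain ⟨a, b, hb, hab⟩ := h1
    have ha : a ∉ q := by
      intro ha
      have h4 : NU (locAt A q hq) (D f * b) := by rw [hab]; exact NU_locAt.2 ha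
      have h5 := h4.mul_right ((locAt A q hq).mul_mem h2 (inv_mem_locAt hb))
      have h6 : D f * b * ((D f)⁻¹ * (b : E)⁻¹) = 1 := by
        have := coe_ne_zero_of_notMem hb
        field_simp
      rw [h6] at h5
      exact not_NU_one h5
    rw [hmem] at ha hb
    have h7 : (⟨c * (((∏ i, s.M.x t i) * (e : E)) • D) f, h⟩ : O) * ⟨b, hO.le b.2⟩ =
        c * (⟨∏ i, s.M.x t i, O.prod_mem fun i _ => hxO i⟩ * (⟨e, hO.le e.2⟩ *
          ⟨a, hO.le a.2⟩)) := by
      apply Subtype.ext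
      change (c : E) * (((∏ i, s.M.x t i) * (e : E)) * D f) * b =
        c * ((∏ i, s.M.x t i) * (e * a))
      rw [← hab]
      ring
    have h8 := 𝔮.mul_mem_right ⟨b, hO.le b.2⟩ hcon
    rw [h7] at h8
    rcases h𝔮.mem_or_mem h8 with h9 | h9
    · exact hc h9
    rcases h𝔮.mem_or_mem h9 with h9 | h9
    · exact hPq h9
    rcases h𝔮.mem_or_mem h9 with h9 | h9
    · exact he h9
    · exact ha h9
  by_cases hq0 : q = ⊥
  · -- the generic point
    obtain ⟨D, hDf⟩ := hf
    have hall : ∀ y : E, y ∈ locAt A q hq := by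
      intro y
      obtain ⟨a, ha, b, hb, hb0, rfl⟩ := hSf.fr y
      refine ⟨⟨a, ha⟩, ⟨b, hb⟩, ?_, ?_⟩
      · rw [hq0, Ideal.mem_bot]
        intro h
        exact hb0 (congrArg Subtype.val h)
      · exact inv_mul_cancel_right₀ hb0 a
    exact key D (fun a _ => hall _) (hall _) (hall _) hDf
  · have hqm : ¬ q.IsMaximal := by
      intro hm
      have h1 : q ≤ hO.mx := fun a ha => hunit _ ((hmem a).1 ha)
      have h2 : q = hO.mx := hm.eq_of_le hO.isMaximal.ne_top h1
      obtain ⟨z, hz, hz𝔮⟩ := hnm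
      obtain ⟨a, ha, b, hb, hb0, hbi, hzab⟩ := hO.frac z z.2
      have h3 : NU O a := by
        have h4 := hz.mul_right (hO.le hb)
        rwa [hzab, inv_mul_cancel_right₀ hb0] at h4
      have h5 : (⟨a, ha⟩ : A) ∈ q := by rw [h2]; exact h3
      rw [hmem] at h5
      apply hz𝔮
      have h6 : z = ⟨b⁻¹, hbi⟩ * ⟨a, hO.le ha⟩ := Subtype.ext (by
        change (z : E) = b⁻¹ * a
        rw [hzab, mul_comm])
      rw [h6]
      exact 𝔮.mul_mem_left _ h5
    have hDv := (hfin k E htr A hSf).2.2.1 q hq hq0 hqm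
    rcases hCO _ ⟨t, hDv⟩ with hb | ⟨hfW, D, hD, hD0, hD1, hD2⟩
    · exfalso
      obtain ⟨t', i, h1, h2⟩ := hb
      have h3 := (s.M.nu_iff h1.le (le_locAt (A := A) (q := q) (hq := hq)) i).1 h2
      have h4 : (⟨s.M.x t i, s.M.xA t i⟩ : A) ∈ q := NU_locAt.1 h3
      exact hx𝔮 i ((hmem _).1 h4)
    · exact key D (fun a ha => hD a (le_locAt ha)) hD1 hD2 hD0

end Pool.Agent.W327.WD
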